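import Pool.Agent.Helper58.QD.StM

/-!
# Project QD, module BOL: integrated Bochner formula without weight

Adapted from module BOJ of project DSH (helper70).
-/

set_option autoImplicit false

open Set Filter Topology MeasureTheory
open Helper62.LH Helper62.DSH Helper58.QD
open scoped ContDiff ENNReal

noncomputable section

namespace Pool.Agent.Helper92.QD

private theorem vol_cont {n : ℕ} {g : E n → Bl n} (hg : IsMet g) : Continuous (fun x => vol g x) := by
  have h := hg.smooth.continuous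
  have h1 : Continuous (fun x => gm g x) := by
    refine continuous_pi fun i => continuous_pi fun j => ?_
    show Continuous fun x => g x (ee i) (ee j)
    fun_prop
  exact (h1.matrix_det).sqrt

private theorem ipt_smooth {n j : ℕ} {s t : E n → Tn n j} (hs : ContDiff ℝ ∞ s)
    (ht : ContDiff ℝ ∞ t) : ContDiff ℝ ∞ (fun x => ipt (s x) (t x)) := by
  unfold ipt
  have hs' := contDiff_pi.1 hs
  have ht' := contDiff_pi.1 ht
  exact (ContDiff.sum fun I _ => (hs' I).mul (ht' I)).div_const _

private theorem ct_smooth {n j : ℕ} (a : Fin n) {s : E n → Tn n (j + 1)} (hs : ContDiff ℝ ∞ s) :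
    ContDiff ℝ ∞ (fun x => ct a (s x)) := by
  have hs' := contDiff_pi.1 hs
  exact contDiff_pi.2 fun K => hs' (Fin.cons a K)

private theorem ct_zero {n j : ℕ} (a : Fin n) : ct a (0 : Tn n (j + 1)) = 0 := rfl

private theorem ipt_zero_left {n j : ℕ} (t : Tn n j) : ipt 0 t = 0 := by
  unfold ipt
  simp

private theorem q2_zero {n j : ℕ} : q2 (0 : Tn n j) = 0 := ipt_zero_left _

private theorem integ {n : ℕ} {h : E n → ℝ} (hc : Continuous h) {K : Set (E n)} (hK : IsCompact K)
    (h0 : ∀ x, x ∉ K → h x = 0) : Integrable h :=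
  hc.integrable_of_hasCompactSupport (HasCompactSupport.intro hK fun x hx => h0 x hx)

private theorem Hs_zero {n : ℕ} (Γ : E n → Bm n) (x u v : E n) :
    Hs Γ (fun _ : E n => (0 : ℝ)) x u v = 0 := by
  have h0 : fderiv ℝ (fun _ : E n => (0 : ℝ)) = fun _ => 0 := by
    funext y
    exact (hasFDerivAt_const (0 : ℝ) y).fderiv
  have h1 : fderiv ℝ (fderiv ℝ (fun _ : E n => (0 : ℝ))) x = 0 := by
    rw [h0]
    exact (hasFDerivAt_const (0 : E n →L[ℝ] ℝ) x).fderiv
  unfold Hs
  rw [h1, h0]
  simp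

theorem hBol (_hChr : StChr) (hSqd : TSqd) (hDer : TDer) (hDvg : TDvg) (hPtw : TPtw) : SBol := by
  intro n m g Γ F G hg hΓ hFr u hu hAl hsupp
  have hf : ContDiff ℝ ∞ (fun _ : E n => (0 : ℝ)) := contDiff_const
  have hder := hDer n (m + 1) g Γ F G hFr
  have hder0 := hDer n m g Γ F G hFr
  have hcv : ∀ a, ContDiff ℝ ∞ (fun x => cv F G u x a) := (hder.1 u hu).1
  have hdF : ContDiff ℝ ∞ (dF F G u) := (hder.1 u hu).2
  have hdl : ContDiff ℝ ∞ (dlF F G (fun _ => 0) u) := hder0.2.1 (fun _ => 0) u hf hu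
  have hcvA : ∀ x a, Altn (cv F G u x a) := (hder.2.2.1 u hu hAl).1
  have hsup : ∀ x, x ∉ tsupport u → u x = 0 ∧ (∀ a, cv F G u x a = 0) ∧ dF F G u x = 0 :=
    fun x hx => hder.2.2.2.2.2.2.2 u x hx
  have hdl0 : ∀ x, x ∉ tsupport u → dlF F G (fun _ => 0) u x = 0 := by
    intro x hx
    obtain ⟨h1, h2, _⟩ := hsup x hx
    unfold dlF
    refine Finset.sum_eq_zero fun a _ => ?_
    rw [h2 a, h1, ct_zero, smul_zero, sub_zero]
  have hYc : ∀ b, ContDiff ℝ ∞ (fun x => YB F G (fun _ => 0) u x b) := by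
    intro b
    unfold YB
    exact (ipt_smooth hdl (ct_smooth b hu)).sub
      (ContDiff.sum fun a _ => ipt_smooth (ct_smooth a hu) (ct_smooth b (hcv a)))
  have hY : ContDiff ℝ 1 (fun x => YB F G (fun _ => 0) u x) :=
    contDiff_pi.2 fun b => (hYc b).of_le (by exact_mod_cast le_top)
  have hYs : HasCompactSupport (fun x => YB F G (fun _ => 0) u x) := by
    refine HasCompactSupport.intro hsupp fun x hx => ?_
    obtain ⟨h1, h2, _⟩ := hsup x hx
    funext b
    unfold YB
    rw [hdl0 x hx, h1, ipt_zero_left, zero_sub, Pi.zero_apply, neg_eq_zero]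
    refine Finset.sum_eq_zero fun a _ => ?_
    rw [ct_zero, ipt_zero_left]
  obtain ⟨B, hB⟩ : ∃ B : E n → ℝ, B = fun x =>
      ∑ a, (fderiv ℝ (fun y => YB F G (fun _ => 0) u y a) x (F a x) +
      ((∑ b, G x b a b) - fderiv ℝ (fun _ : E n => (0 : ℝ)) x (F a x)) *
        YB F G (fun _ => 0) u x a) := ⟨_, rfl⟩
  have hw : ∀ x, wt g (fun _ => 0) x = vol g x := by
    intro x
    unfold wt
    rw [neg_zero, Real.exp_zero, one_mul]
  have hD : ∫ x, B x * vol g x = 0 := by
    have h := hDvg n g Γ F G hg hΓ hFr (fun _ => 0) hf (fun x => YB F G (fun _ => 0) u x) hY hYs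
    simp only [hw] at h
    rw [hB]
    exact h
  have hP : ∀ x, B x = q2 (dlF F G (fun _ => 0) u x) -
      (∑ a, ∑ b, ipt (ct a (cv F G u x b)) (ct b (cv F G u x a))) - Wz (Rc g Γ F x) (u x) := by
    intro x
    rw [hB]
    have h := hPtw n m g Γ F G hg hΓ hFr (fun _ => 0) u hf hu x
    have h0 : (∑ a, ∑ b, Hs Γ (fun _ => 0) x (F a x) (F b x) * ipt (ct a (u x)) (ct b (u x))) = 0 :=
      Finset.sum_eq_zero fun a _ => Finset.sum_eq_zero fun b _ => by rw [Hs_zero, zero_mul]
    rw [h0, sub_zero] at h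
    exact h
  have hS : ∀ x, q2 (dF F G u x) = NF F G u x -
      ∑ a, ∑ b, ipt (ct a (cv F G u x b)) (ct b (cv F G u x a)) :=
    fun x => (hSqd n).2.2 m (cv F G u x) (hcvA x)
  -- continuity
  have hvol : Continuous (fun x => vol g x) := vol_cont hg
  have hBc : Continuous B := by
    rw [hB]
    refine continuous_finset_sum _ fun a _ => ?_
    have h1 := (hYc a).continuous_fderiv (by simp)
    have h2 := hf.continuous_fderiv (by simp)
    have h3 := (hFr.smF a).continuous
    have h4 : Continuous (fun x => ∑ b, G x b a b) :=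
      continuous_finset_sum _ fun b _ => (hFr.smG b a b).continuous
    exact (h1.clm_apply h3).add ((h4.sub (h2.clm_apply h3)).mul (hYc a).continuous)
  have hqd : Continuous (fun x => q2 (dF F G u x)) := (ipt_smooth hdF hdF).continuous
  have hql : Continuous (fun x => q2 (dlF F G (fun _ => 0) u x)) := (ipt_smooth hdl hdl).continuous
  -- integrability
  have iB : Integrable (fun x => B x * vol g x) := by
    refine integ (hBc.mul hvol) hsupp fun x hx => ?_
    show B x * vol g x = 0
    obtain ⟨h1, h2, _⟩ := hsup x hx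
    have h3 : B x = 0 := by
      rw [hP x, hdl0 x hx, h1, q2_zero]
      have e1 : (∑ a, ∑ b, ipt (ct a (cv F G u x b)) (ct b (cv F G u x a))) = 0 := by
        refine Finset.sum_eq_zero fun a _ => Finset.sum_eq_zero fun b _ => ?_
        rw [h2 b, ct_zero, ipt_zero_left]
      have e3 : Wz (Rc g Γ F x) (0 : Tn n (m + 1)) = 0 := by
        unfold Wz
        refine Finset.sum_eq_zero fun a _ => Finset.sum_eq_zero fun b _ => ?_
        rw [ct_zero, ipt_zero_left]
      rw [e1, e3]
      ring
    rw [h3, zero_mul]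
  have iD : Integrable (fun x =>
      (q2 (dF F G u x) + q2 (dlF F G (fun _ => 0) u x)) * vol g x) := by
    refine integ ((hqd.add hql).mul hvol) hsupp fun x hx => ?_
    show (q2 (dF F G u x) + q2 (dlF F G (fun _ => 0) u x)) * vol g x = 0
    obtain ⟨_, _, h3⟩ := hsup x hx
    rw [h3, hdl0 x hx, q2_zero, q2_zero, add_zero, zero_mul]
  calc ∫ x, (NF F G u x + Wz (Rc g Γ F x) (u x)) * vol g x
      = ∫ x, ((q2 (dF F G u x) + q2 (dlF F G (fun _ => 0) u x)) * vol g x - B x * vol g x) := by
        refine integral_congr_ae (Eventually.of_forall fun x => ?_)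
        show (NF F G u x + Wz (Rc g Γ F x) (u x)) * vol g x =
          (q2 (dF F G u x) + q2 (dlF F G (fun _ => 0) u x)) * vol g x - B x * vol g x
        rw [hP x, hS x]
        ring
    _ = ∫ x, (q2 (dF F G u x) + q2 (dlF F G (fun _ => 0) u x)) * vol g x := by
        rw [integral_sub iD iB, hD, sub_zero]

end Pool.Agent.Helper92.QD
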