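import Pool.Agent.Helper58.QD.StF
import Pool.Agent.Helper62.LH.Fin

/-!
# Project QD, module NNA: the norm of forms
-/

set_option autoImplicit false

open Set Filter Topology MeasureTheory
open Helper62.LH Helper62.DSH Helper58.QD
open scoped ContDiff ENNReal

noncomputable section

namespace Pool.Agent.Helper92.QD

/-- the components in a frame, as a vector of a euclidean space -/
private def Vm {n k : ℕ} (f : Fin n → E n) : Fk n k →L[ℝ] EuclideanSpace ℝ (Fin k → Fin n) :=
  ((EuclideanSpace.equiv (Fin k → Fin n) ℝ).symm : _ →L[ℝ] _).comp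
    (ContinuousLinearMap.pi fun I : Fin k → Fin n =>
      ContinuousAlternatingMap.apply ℝ (E n) ℝ (fun a => f (I a)))

private theorem Vm_apply {n k : ℕ} (f : Fin n → E n) (α : Fk n k) (I : Fin k → Fin n) :
    Vm f α I = α (fun a => f (I a)) := rfl

private theorem Vm_norm_sq {n k : ℕ} (f : Fin n → E n) (α : Fk n k) :
    ‖Vm f α‖ ^ 2 = ∑ I : Fin k → Fin n, α (fun a => f (I a)) ^ 2 := by
  rw [EuclideanSpace.norm_sq_eq]
  refine Finset.sum_congr rfl fun I _ => ?_
  rw [Vm_apply, Real.norm_eq_abs, sq_abs]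

private theorem nn_eq {n k : ℕ} (hCfr : StCfr) {g : E n → Bl n} {x : E n} {f : Fin n → E n}
    (hf : Onb g x f) (α : Fk n k) : nn g x α = ‖Vm f α‖ / √(k.factorial : ℝ) := by
  unfold nn
  rw [nsq_frame hCfr hf, ← Vm_norm_sq, Real.sqrt_div' _ (Nat.cast_nonneg _),
    Real.sqrt_sq (norm_nonneg _)]

private theorem jensen {n : ℕ} {ρ a : E n → ℝ} (hρ : Mol ρ) (ha : Continuous a) :
    (∫ y, ρ y * a y) ^ 2 ≤ ∫ y, ρ y * a y ^ 2 := by
  have hc : Continuous ρ := hρ.smooth.continuous
  have hint : ∀ h : E n → ℝ, Continuous h → Integrable (fun y => ρ y * h y) := by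
    intro h hh
    refine (hc.mul hh).integrable_of_hasCompactSupport
      (HasCompactSupport.intro (isCompact_closedBall (0 : E n) 1) fun x hx => ?_)
    rw [Metric.mem_closedBall, dist_zero_right, not_le] at hx
    show ρ x * h x = 0
    rw [hρ.supp x hx, zero_mul]
  obtain ⟨m, hm⟩ : ∃ m : ℝ, m = ∫ y, ρ y * a y := ⟨_, rfl⟩
  have h1 : 0 ≤ ∫ y, ρ y * (a y - m) ^ 2 :=
    integral_nonneg fun y => mul_nonneg (hρ.nonneg y) (sq_nonneg _)
  have i1 : Integrable (fun y => ρ y * a y ^ 2) := hint (fun y => a y ^ 2) (ha.pow 2)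
  have i2 : Integrable (fun y => ρ y * a y) := hint a ha
  have i3 : Integrable (fun y => ρ y) := by
    have h := hint (fun _ => 1) continuous_const
    simpa using h
  have h2 : ∫ y, ρ y * (a y - m) ^ 2 =
      (∫ y, ρ y * a y ^ 2) - 2 * m * (∫ y, ρ y * a y) + m ^ 2 * ∫ y, ρ y := by
    have i4 : Integrable (fun y => ρ y * a y ^ 2 - 2 * m * (ρ y * a y)) := i1.sub (i2.const_mul _)
    have i5 : Integrable (fun y => m ^ 2 * ρ y) := i3.const_mul _
    have e1 := integral_add i4 i5
    have e2 := integral_sub i1 (i2.const_mul (2 * m))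
    rw [integral_const_mul] at e1 e2
    rw [← e2, ← e1]
    refine integral_congr_ae (Eventually.of_forall fun y => ?_)
    show ρ y * (a y - m) ^ 2 = ρ y * a y ^ 2 - 2 * m * (ρ y * a y) + m ^ 2 * ρ y
    ring
  rw [h2, ← hm, hρ.int] at h1
  rw [← hm]
  nlinarith

theorem hNna (hOnb : StOnb) (hCfr : StCfr) : SNna := by
  intro n k g hg x
  obtain ⟨f, hf⟩ := hOnb n g hg x
  have hk : 0 < √(k.factorial : ℝ) := Real.sqrt_pos.2 (by exact_mod_cast k.factorial_pos)
  refine ⟨?_, ?_, ?_, ?_, ?_⟩
  · intro α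
    have h0 := nsq_nonneg hOnb hCfr hg x α
    exact ⟨h0, Real.sq_sqrt h0, Real.sqrt_nonneg _⟩
  · intro α β
    rw [nn_eq hCfr hf, nn_eq hCfr hf, nn_eq hCfr hf, map_add, ← add_div]
    exact div_le_div_of_nonneg_right (norm_add_le _ _) hk.le
  · intro c α
    rw [nn_eq hCfr hf, nn_eq hCfr hf, map_smul, norm_smul, Real.norm_eq_abs, mul_div_assoc]
  · intro φ B hφ hB
    rw [nn_eq hCfr hf, div_le_iff₀ hk,
      ← ContinuousLinearMap.intervalIntegral_comp_comm (Vm f) (hφ.intervalIntegrable 0 1)]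
    have h1 : ∀ s ∈ Set.uIoc (0 : ℝ) 1, ‖Vm f (φ s)‖ ≤ B * √(k.factorial : ℝ) := by
      intro s hs
      rw [Set.uIoc_of_le zero_le_one] at hs
      have h2 := hB s ⟨hs.1.le, hs.2⟩
      rwa [nn_eq hCfr hf, div_le_iff₀ hk] at h2
    have h3 := intervalIntegral.norm_integral_le_of_norm_le_const h1
    rwa [sub_zero, abs_one, mul_one] at h3
  · intro ρ φ hρ hφ
    have hc : Continuous ρ := hρ.smooth.continuous
    have hint : ∀ h : E n → ℝ, Continuous h → Integrable (fun y => ρ y * h y) := by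
      intro h hh
      refine (hc.mul hh).integrable_of_hasCompactSupport
        (HasCompactSupport.intro (isCompact_closedBall (0 : E n) 1) fun x hx => ?_)
      rw [Metric.mem_closedBall, dist_zero_right, not_le] at hx
      show ρ x * h x = 0
      rw [hρ.supp x hx, zero_mul]
    have hφi : Integrable (fun y => ρ y • φ y) := by
      refine (hc.smul hφ).integrable_of_hasCompactSupport
        (HasCompactSupport.intro (isCompact_closedBall (0 : E n) 1) fun x hx => ?_)
      rw [Metric.mem_closedBall, dist_zero_right, not_le] at hx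
      show ρ x • φ x = 0
      rw [hρ.supp x hx, zero_smul]
    have hcomp : ∀ I : Fin k → Fin n, Continuous (fun y => φ y (fun a => f (I a))) := fun I =>
      (ContinuousAlternatingMap.apply ℝ (E n) ℝ (fun a => f (I a))).continuous.comp hφ
    have hev : ∀ I : Fin k → Fin n, (∫ y, ρ y • φ y) (fun a => f (I a)) =
        ∫ y, ρ y * φ y (fun a => f (I a)) := by
      intro I
      have h := ContinuousLinearMap.integral_comp_comm
        (ContinuousAlternatingMap.apply ℝ (E n) ℝ (fun a => f (I a))) hφi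
      exact h.symm
    rw [nsq_frame hCfr hf]
    have h1 : ∫ y, ρ y * nsq g k x (φ y) =
        (∑ I : Fin k → Fin n, ∫ y, ρ y * φ y (fun a => f (I a)) ^ 2) / k.factorial := by
      rw [← integral_finsetSum _ fun I _ => hint (fun y => φ y (fun a => f (I a)) ^ 2)
        ((hcomp I).pow 2), ← integral_div]
      refine integral_congr_ae (Eventually.of_forall fun y => ?_)
      show ρ y * nsq g k x (φ y) =
        (∑ I : Fin k → Fin n, ρ y * φ y (fun a => f (I a)) ^ 2) / k.factorial
      rw [nsq_frame hCfr hf, ← Finset.mul_sum, mul_div_assoc]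
    rw [h1]
    refine div_le_div_of_nonneg_right (Finset.sum_le_sum fun I _ => ?_) (Nat.cast_nonneg _)
    rw [hev I]
    exact jensen hρ (hcomp I)

end Pool.Agent.Helper92.QD
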